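import Pool.Agent.N874.PP.Gal

/-!
Hilbert 90 for the cubic algebra (project PP of helper874), statement `S_GB`, and the statements
`S_GN`, `S_GT`. By helper187.
-/

set_option autoImplicit false
set_option linter.all false

open Polynomial IsDedekindDomain WeierstrassCurve WeierstrassCurve.Affine
open Pool.Agent.TH115.GD Pool.Agent.N874.PP
open scoped Classical Pointwise

namespace Pool.Agent.N187.PP

section basics

variable {K Ω : Type} [Field K] [Field Ω] [Algebra K Ω] {A B : K}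

theorem rt_iff (t : Ω) : Rt A B t ↔ aeval t (X ^ 3 + C A * X + C B : K[X]) = 0 := by
  simp [Rt]

theorem rt_map {Ω' : Type} [Field Ω'] [Algebra K Ω'] (φ : Ω →ₐ[K] Ω') {t : Ω} (h : Rt A B t) :
    Rt A B (φ t) := by
  rw [rt_iff] at h ⊢
  rw [aeval_algHom_apply, h, map_zero]

theorem rt_map' (σ : Ω ≃ₐ[K] Ω) {t : Ω} (h : Rt A B t) : Rt A B (σ t) :=
  rt_map σ.toAlgHom h

theorem F_monic : (X ^ 3 + C A * X + C B : K[X]).Monic := by
  monicity!

theorem F_natDegree : (X ^ 3 + C A * X + C B : K[X]).natDegree = 3 := by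
  compute_degree!

theorem F_sep (h6 : (6 : K) ≠ 0) (hirr : Irreducible (X ^ 3 + C A * X + C B : K[X])) :
    (X ^ 3 + C A * X + C B : K[X]).Separable := by
  rw [Polynomial.separable_iff_derivative_ne_zero hirr]
  intro h
  have h1 := congrArg (fun p => coeff p 2) h
  simp [coeff_X, coeff_C, coeff_X_pow] at h1
  have h3 := coeff_mul_X_pow (C 2 + 1 : K[X]) 2 0
  simp only [zero_add] at h3
  rw [h1, coeff_add, coeff_C_zero, coeff_one_zero] at h3
  apply h6
  linear_combination -2 * h3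

end basics

/-- Three different zeros. -/
theorem exists_roots {K : Type} [Field K] {A B : K} (h6 : (6 : K) ≠ 0)
    (hirr : Irreducible (X ^ 3 + C A * X + C B : K[X])) :
    ∃ t₁ t₂ t₃ : Sep K, t₁ ≠ t₂ ∧ t₁ ≠ t₃ ∧ t₂ ≠ t₃ ∧ Rt A B t₁ ∧ Rt A B t₂ ∧ Rt A B t₃ ∧
      ∀ t : Sep K, Rt A B t → t = t₁ ∨ t = t₂ ∨ t = t₃ := by
  have hs := F_sep h6 hirr
  have hsp : ((X ^ 3 + C A * X + C B : K[X]).map (algebraMap K (Sep K))).Splits :=
    IsSepClosed.splits_codomain _ hs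
  have hm := F_monic (A := A) (B := B)
  have hcard : Multiset.card ((X ^ 3 + C A * X + C B : K[X]).map (algebraMap K (Sep K))).roots = 3 := by
    rw [← hsp.natDegree_eq_card_roots, hm.natDegree_map, F_natDegree]
  have hnd : ((X ^ 3 + C A * X + C B : K[X]).map (algebraMap K (Sep K))).roots.Nodup :=
    nodup_roots hs.map
  obtain ⟨t₁, t₂, t₃, h⟩ := Multiset.card_eq_three.1 hcard
  have hmem : ∀ t : Sep K, Rt A B t ↔
      t ∈ ((X ^ 3 + C A * X + C B : K[X]).map (algebraMap K (Sep K))).roots := by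
    intro t
    rw [mem_roots (hm.map _).ne_zero, rt_iff, IsRoot.def, eval_map_algebraMap]
  rw [h] at hmem hnd
  simp only [Multiset.insert_eq_cons, Multiset.mem_cons, Multiset.mem_singleton] at hmem
  simp at hnd
  refine ⟨t₁, t₂, t₃, ?_, ?_, ?_, (hmem _).2 (by simp), (hmem _).2 (by simp), (hmem _).2 (by simp),
    fun t ht => (hmem t).1 ht⟩
  · exact hnd.1.1
  · exact hnd.1.2
  · exact hnd.2


section points

variable {K Ω : Type} [Field K] [Field Ω] [Algebra K Ω] {A B : K}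

theorem sg_sq (T : Pt (sW A B) Ω) (t : Ω) : sg T t = 1 ∨ sg T t = -1 := by
  unfold sg; split_ifs
  · left; rfl
  · right; rfl

theorem sg_mul_self (T : Pt (sW A B) Ω) (t : Ω) : sg T t * sg T t = 1 := by
  rcases sg_sq T t with h | h <;> rw [h] <;> ring

theorem sg_ne (T : Pt (sW A B) Ω) (t : Ω) : sg T t ≠ 0 := by
  intro h
  have := sg_mul_self T t
  rw [h] at this
  simp at this

theorem sg_zero (t : Ω) : sg (0 : Pt (sW A B) Ω) t = 1 := by
  unfold sg; rw [if_pos (Or.inl rfl)]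

theorem fix_sg (σ : Ω ≃ₐ[K] Ω) (T : Pt (sW A B) Ω) (t : Ω) : σ (sg T t) = sg T t := by
  rcases sg_sq T t with h | h <;> rw [h] <;> simp

theorem sg_act' (h4 : S_GP4) (σ : Ω ≃ₐ[K] Ω) (T : Pt (sW A B) Ω) (t : Ω) :
    sg (act (sW A B) (rs K σ) T) (σ t) = sg T t := by
  have h := (h4 K Ω Ω A B (rs K σ) T t).1
  have e : (rs K σ : Ω →ₐ[K] Ω) (sg T t) = σ (sg T t) := rfl
  have e' : (rs K σ : Ω →ₐ[K] Ω) t = σ t := rfl
  rw [e, fix_sg, e'] at h
  exact h

theorem two_act' (φ : Ω →ₐ[K] Ω) {T : Pt (sW A B) Ω} (h : (2 : ℕ) • T = 0) :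
    (2 : ℕ) • act (sW A B) φ T = 0 := by
  rw [← map_nsmul, h, map_zero]

end points

section cocycle

variable {K : Type} [Field K] {A B : K}

/-- The cocycle relation for the signs. -/
theorem sg_coc (h3 : S_GP3) (h4 : S_GP4) (h6 : (6 : K) ≠ 0) (hd : 4 * A ^ 3 + 27 * B ^ 2 ≠ 0)
    (hirr : Irreducible (X ^ 3 + C A * X + C B : K[X]))
    {f : (Sep K ≃ₐ[K] Sep K) → Pt (sW A B) (Sep K)} (hf : IsCoc (sW A B) f)
    (hf2 : ∀ σ, (2 : ℕ) • f σ = 0) (σ τ : Sep K ≃ₐ[K] Sep K) {t : Sep K} (ht : Rt A B t) :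
    sg (f (σ * τ)) (σ t) = sg (f σ) (σ t) * sg (f τ) t := by
  obtain ⟨t₁, t₂, t₃, n1, n2, n3, r1, r2, r3, -⟩ := exists_roots h6 hirr
  rw [hf.mul, (h3 K (Sep K) A B h6 hd t₁ t₂ t₃ r1 r2 r3 n1 n2 n3).2.1 _ _ (σ t) (hf2 σ)
    (two_act' _ (hf2 τ)) (rt_map' σ ht), sg_act' h4]

theorem minpoly_eq {L : Type} [Field L] [Algebra K L]
    (hirr : Irreducible (X ^ 3 + C A * X + C B : K[X])) {t : L} (ht : Rt A B t) :
    minpoly K t = X ^ 3 + C A * X + C B :=
  (minpoly.eq_of_irreducible_of_monic hirr ((rt_iff t).1 ht) F_monic).symm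

theorem trans (hirr : Irreducible (X ^ 3 + C A * X + C B : K[X])) {t s : Sep K} (ht : Rt A B t)
    (hs : Rt A B s) : ∃ σ : Sep K ≃ₐ[K] Sep K, σ t = s := by
  have h : IsConjRoot K s t := by
    rw [isConjRoot_def, minpoly_eq hirr ht, minpoly_eq hirr hs]
  exact isConjRoot_iff_exists_algEquiv.1 h

theorem locConst_apply (x : Sep K) : IsLocallyConstant (fun σ : Sep K ≃ₐ[K] Sep K => σ x) := by
  rw [IsLocallyConstant.iff_exists_open]
  intro σ
  have ho : IsOpen (MulAction.stabilizer (Sep K ≃ₐ[K] Sep K) x : Set (Sep K ≃ₐ[K] Sep K)) :=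
    stabilizer_isOpen_of_isIntegral x
  refine ⟨σ • (MulAction.stabilizer (Sep K ≃ₐ[K] Sep K) x : Set (Sep K ≃ₐ[K] Sep K)), ho.smul σ,
    ?_, ?_⟩
  · exact ⟨1, (MulAction.stabilizer (Sep K ≃ₐ[K] Sep K) x).one_mem, mul_one σ⟩
  · rintro τ ⟨ρ, hρ, rfl⟩
    have h1 : ρ x = x := hρ
    show (σ * ρ) x = σ x
    rw [AlgEquiv.mul_apply, h1]

/-- A locally constant quadratic character of a stabiliser comes from a square root. -/
theorem exists_root (h2 : (2 : Sep K) ≠ 0) (t : Sep K) (χ : (Sep K ≃ₐ[K] Sep K) → Sep K)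
    (hχ : ∀ σ, χ σ = 1 ∨ χ σ = -1)
    (hmul : ∀ σ τ : Sep K ≃ₐ[K] Sep K, σ t = t → τ t = t → χ (σ * τ) = χ σ * χ τ)
    (hc : IsLocallyConstant χ) :
    ∃ s : Sep K, s ≠ 0 ∧ ∀ σ : Sep K ≃ₐ[K] Sep K, σ t = t → σ s = χ σ * s := by
  have h11 : (1 : Sep K) ≠ -1 := by
    intro h'
    exact h2 (by linear_combination h')
  have hone : χ 1 = 1 := by
    have := hmul 1 1 rfl rfl
    rw [mul_one] at this
    rcases hχ 1 with h | h
    · exact h
    · rw [h] at this
      exact absurd (by linear_combination -this) h11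
  have hinv : ∀ σ : Sep K ≃ₐ[K] Sep K, σ t = t → (σ⁻¹ : Sep K ≃ₐ[K] Sep K) t = t := by
    intro σ hσ
    have := congrArg (σ⁻¹ : Sep K ≃ₐ[K] Sep K) hσ
    rw [← AlgEquiv.mul_apply, inv_mul_cancel, AlgEquiv.one_apply] at this
    exact this.symm
  by_cases htriv : ∀ σ : Sep K ≃ₐ[K] Sep K, σ t = t → χ σ = 1
  · exact ⟨1, one_ne_zero, fun σ hσ => by rw [htriv σ hσ, map_one, mul_one]⟩
  · push Not at htriv
    obtain ⟨τ, hτt, hτ⟩ := htriv
    have hτ' : χ τ = -1 := (hχ τ).resolve_left hτ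
    let H : Subgroup (Sep K ≃ₐ[K] Sep K) :=
      { carrier := {σ | σ t = t ∧ χ σ = 1}
        mul_mem' := by
          intro a b ha hb
          refine ⟨?_, ?_⟩
          · rw [AlgEquiv.mul_apply, hb.1, ha.1]
          · rw [hmul _ _ ha.1 hb.1, ha.2, hb.2, mul_one]
        one_mem' := ⟨rfl, hone⟩
        inv_mem' := by
          intro a ha
          refine ⟨hinv a ha.1, ?_⟩
          have := hmul a⁻¹ a (hinv a ha.1) ha.1
          rw [inv_mul_cancel, hone, ha.2, mul_one] at this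
          exact this.symm }
    have hHo : IsOpen (H : Set (Sep K ≃ₐ[K] Sep K)) := by
      have e : (H : Set (Sep K ≃ₐ[K] Sep K)) =
          (fun σ : Sep K ≃ₐ[K] Sep K => σ t) ⁻¹' {t} ∩ χ ⁻¹' {1} := by
        ext σ; rfl
      rw [e]
      exact ((locConst_apply t).isOpen_fiber t).inter (hc.isOpen_fiber 1)
    let Hc : ClosedSubgroup (Sep K ≃ₐ[K] Sep K) := ⟨H, H.isClosed_of_isOpen hHo⟩
    have hfx := InfiniteGalois.fixingSubgroup_fixedField Hc
    have hτn : τ ∉ (IntermediateField.fixedField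
        (Hc : Subgroup (Sep K ≃ₐ[K] Sep K))).fixingSubgroup := by
      rw [hfx]
      intro h
      exact hτ h.2
    rw [IntermediateField.mem_fixingSubgroup_iff] at hτn
    push Not at hτn
    obtain ⟨x, hx, hx'⟩ := hτn
    have hxH : ∀ σ : Sep K ≃ₐ[K] Sep K, σ t = t → χ σ = 1 → σ x = x := by
      intro σ hσ hσ'
      exact hx ⟨σ, hσ, hσ'⟩
    refine ⟨x - τ x, sub_ne_zero.2 (Ne.symm hx'), ?_⟩
    intro σ hσt
    rw [map_sub]
    rcases hχ σ with h | h
    · have e1 : σ x = x := hxH σ hσt h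
      have e2 : σ (τ x) = τ x := by
        have h3 : χ (τ⁻¹ * σ * τ) = 1 := by
          rw [hmul _ _ (by rw [AlgEquiv.mul_apply, hσt, hinv τ hτt]) hτt,
            hmul _ _ (hinv τ hτt) hσt, h, mul_one, ← hmul _ _ (hinv τ hτt) hτt, inv_mul_cancel,
            hone]
        have h4 := hxH _ (by
          rw [AlgEquiv.mul_apply, hτt, AlgEquiv.mul_apply, hσt, hinv τ hτt]) h3
        rw [AlgEquiv.mul_apply, AlgEquiv.mul_apply] at h4
        have h5 := congrArg τ h4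
        rw [← AlgEquiv.mul_apply τ τ⁻¹, mul_inv_cancel, AlgEquiv.one_apply] at h5
        exact h5
      rw [e1, e2, h, one_mul]
    · have h6 : χ τ⁻¹ = -1 := by
        have := hmul τ⁻¹ τ (hinv τ hτt) hτt
        rw [inv_mul_cancel, hone, hτ'] at this
        linear_combination this
      have e1 : σ x = τ x := by
        have h3 : χ (τ⁻¹ * σ) = 1 := by
          rw [hmul _ _ (hinv τ hτt) hσt, h, h6]; ring
        have h4 := hxH _ (by rw [AlgEquiv.mul_apply, hσt, hinv τ hτt]) h3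
        rw [AlgEquiv.mul_apply] at h4
        have h5 := congrArg τ h4
        rw [← AlgEquiv.mul_apply τ τ⁻¹, mul_inv_cancel, AlgEquiv.one_apply] at h5
        exact h5
      have e2 : σ (τ x) = x := by
        have h3 : χ (σ * τ) = 1 := by
          rw [hmul _ _ hσt hτt, h, hτ']; ring
        have h4 := hxH _ (by rw [AlgEquiv.mul_apply, hτt, hσt]) h3
        rwa [AlgEquiv.mul_apply] at h4
      rw [e1, e2, h]; ring

/-- Hilbert 90. -/
theorem gb (h3 : S_GP3) (h4 : S_GP4) : S_GB := by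
  intro K _ A B h6 hd hirr f hf hf2
  obtain ⟨t₀, -, -, -, -, -, r0, -, -, -⟩ := exists_roots h6 hirr
  have h2 : (2 : Sep K) ≠ 0 := by
    intro h
    have h' : (6 : Sep K) = 0 := by linear_combination 3 * h
    apply h6
    have := (algebraMap K (Sep K)).injective (a₁ := 6) (a₂ := 0) (by rw [map_zero, map_ofNat, h'])
    exact this
  obtain ⟨s, hs0, hs⟩ := exists_root h2 t₀ (fun σ => sg (f σ) t₀) (fun σ => sg_sq _ _)
    (fun σ τ hσ hτ => by
      have := sg_coc h3 h4 h6 hd hirr hf hf2 σ τ r0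
      rw [hσ] at this
      exact this) (hf.lc.comp (fun T => sg T t₀))
  have htr : ∀ t : Sep K, ∃ τ : Sep K ≃ₐ[K] Sep K, Rt A B t → τ t₀ = t := by
    intro t
    by_cases h : Rt A B t
    · obtain ⟨τ, hτ⟩ := trans hirr r0 h
      exact ⟨τ, fun _ => hτ⟩
    · exact ⟨1, fun h' => absurd h' h⟩
  choose g hg using htr
  refine ⟨fun t => sg (f (g t)) t * g t s, fun t ht => ⟨?_, fun σ => ?_⟩⟩
  · refine mul_ne_zero (sg_ne _ _) ?_
    rw [Ne, map_eq_zero_iff _ (g t).injective]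
    exact hs0
  · have ht' : Rt A B (σ t) := rt_map' σ ht
    set τ := g t with hτ
    set τ' := g (σ t) with hτ'
    have e1 : τ t₀ = t := hg t ht
    have e2 : τ' t₀ = σ t := hg (σ t) ht'
    set ρ := τ'⁻¹ * σ * τ with hρ
    have e3 : ρ t₀ = t₀ := by
      rw [hρ, AlgEquiv.mul_apply, AlgEquiv.mul_apply, e1, ← e2, ← AlgEquiv.mul_apply,
        inv_mul_cancel, AlgEquiv.one_apply]
    have e4 : σ * τ = τ' * ρ := by rw [hρ]; group
    have c1 := sg_coc h3 h4 h6 hd hirr hf hf2 σ τ ht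
    have c2 := sg_coc h3 h4 h6 hd hirr hf hf2 τ' ρ r0
    rw [← e4, e2] at c2
    have c3 := c1.symm.trans c2
    have e5 : σ (τ s) = τ' (ρ s) := by
      rw [← AlgEquiv.mul_apply, e4, AlgEquiv.mul_apply]
    show σ (sg (f τ) t * τ s) = sg (f σ) (σ t) * (sg (f τ') (σ t) * τ' s)
    rw [map_mul, fix_sg, e5, hs ρ e3, map_mul, fix_sg]
    have q1 := sg_mul_self (f τ) t
    have q2 := sg_mul_self (f τ') (σ t)
    have c4 : sg (f τ) t * sg (f ρ) t₀ = sg (f σ) (σ t) * sg (f τ') (σ t) := by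
      linear_combination sg (f σ) (σ t) * sg (f τ') (σ t) * q1 - sg (f τ) t * sg (f τ') (σ t) * c3 -
        sg (f τ) t * sg (f ρ) t₀ * q2
    linear_combination τ' s * c4

end cocycle

end Pool.Agent.N187.PP
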