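import Pool.Agent.N187.PP.GB

/-!
The polynomial `h` with `h(t) = β(t) ^ 2` and its norm, and the triviality criterion (project PP of
helper874), statements `S_GN` and `S_GT`. By helper187.
-/

set_option autoImplicit false
set_option linter.all false

open Polynomial IsDedekindDomain WeierstrassCurve WeierstrassCurve.Affine
open Pool.Agent.TH115.GD Pool.Agent.N874.PP
open scoped Classical Pointwise

namespace Pool.Agent.N187.PP

/-- The zeros. -/
theorem root_cases {K Ω : Type} [Field K] [Field Ω] [Algebra K Ω] {A B : K} {t₁ t₂ t₃ y : Ω}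
    (n1 : t₁ ≠ t₂) (n2 : t₁ ≠ t₃) (n3 : t₂ ≠ t₃) (r1 : Rt A B t₁) (r2 : Rt A B t₂)
    (r3 : Rt A B t₃) (r : Rt A B y) : y = t₁ ∨ y = t₂ ∨ y = t₃ := by
  unfold Rt at r1 r2 r3 r
  by_cases h : y = t₁
  · left; exact h
  · right
    have e2 : t₂ ^ 2 + t₂ * t₁ + t₁ ^ 2 + algebraMap K Ω A = 0 := by
      apply mul_left_cancel₀ (sub_ne_zero.2 n1)
      linear_combination r1 - r2
    have e3 : t₃ ^ 2 + t₃ * t₁ + t₁ ^ 2 + algebraMap K Ω A = 0 := by
      apply mul_left_cancel₀ (sub_ne_zero.2 n2)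
      linear_combination r1 - r3
    have e : y ^ 2 + y * t₁ + t₁ ^ 2 + algebraMap K Ω A = 0 := by
      apply mul_left_cancel₀ (sub_ne_zero.2 h)
      linear_combination r - r1
    have s : t₁ + t₂ + t₃ = 0 := by
      apply mul_left_cancel₀ (sub_ne_zero.2 n3)
      linear_combination e2 - e3
    by_cases h' : y = t₂
    · left; exact h'
    · right
      have s' : t₁ + t₂ + y = 0 := by
        apply mul_left_cancel₀ (sub_ne_zero.2 h')
        linear_combination e - e2
      linear_combination s' - s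

section K

variable {K : Type} [Field K] {A B : K}

theorem exists_poly {t x : Sep K} (h : ∀ σ : Sep K ≃ₐ[K] Sep K, σ t = t → σ x = x) :
    ∃ p : K[X], aeval t p = x := by
  have hx : x ∈ IntermediateField.fixedField
      (IntermediateField.adjoin K ({t} : Set (Sep K))).fixingSubgroup := by
    intro σ
    have h1 := (IntermediateField.mem_fixingSubgroup_iff _ _).1 σ.2 t
      (IntermediateField.mem_adjoin_simple_self K t)
    exact h σ.1 h1
  rw [InfiniteGalois.fixedField_fixingSubgroup] at hx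
  have ht : IsAlgebraic K t := Algebra.IsAlgebraic.isAlgebraic t
  rw [← IntermediateField.mem_toSubalgebra,
    IntermediateField.adjoin_simple_toSubalgebra_of_isAlgebraic ht,
    Algebra.adjoin_singleton_eq_range_aeval] at hx
  exact hx

/-- Products over the zeros. -/
theorem prod_perm {Ω : Type} [Field Ω] [Algebra K Ω] {t₁ t₂ t₃ : Ω}
    (n1 : t₁ ≠ t₂) (n2 : t₁ ≠ t₃) (n3 : t₂ ≠ t₃) (r1 : Rt A B t₁) (r2 : Rt A B t₂)
    (r3 : Rt A B t₃) (σ : Ω ≃ₐ[K] Ω) (g : Ω → Ω) :
    g (σ t₁) * g (σ t₂) * g (σ t₃) = g t₁ * g t₂ * g t₃ := by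
  have key : ∀ g : Ω → Ω, ∏ t ∈ ({t₁, t₂, t₃} : Finset Ω), g t = g t₁ * g t₂ * g t₃ := by
    intro g
    rw [Finset.prod_insert (by simp [n1, n2]), Finset.prod_insert (by simp [n3]),
      Finset.prod_singleton, mul_assoc]
  rw [← key g, ← key (fun t => g (σ t))]
  have him : ({t₁, t₂, t₃} : Finset Ω).image σ = {t₁, t₂, t₃} := by
    apply Finset.eq_of_subset_of_card_le
    · intro y hy
      rw [Finset.mem_image] at hy
      obtain ⟨t, ht, rfl⟩ := hy
      have hr : Rt A B t := by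
        simp only [Finset.mem_insert, Finset.mem_singleton] at ht
        rcases ht with rfl | rfl | rfl <;> assumption
      rcases root_cases n1 n2 n3 r1 r2 r3 (rt_map' σ hr) with h | h | h <;> rw [h] <;> simp
    · rw [Finset.card_image_of_injective _ σ.injective]
  conv_rhs => rw [← him]
  rw [Finset.prod_image (fun x _ y _ h => σ.injective h)]

/-- Every element of `L` is a polynomial in `t`. -/
theorem gen_poly {L : Type} [Field L] [Algebra K L]
    (hirr : Irreducible (X ^ 3 + C A * X + C B : K[X])) {t : L} (ht : Rt A B t)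
    (h3 : Module.finrank K L = 3) (x : L) : ∃ p : K[X], aeval t p = x := by
  haveI : FiniteDimensional K L := FiniteDimensional.of_finrank_pos (by omega)
  have htop : IntermediateField.adjoin K ({t} : Set L) = ⊤ := by
    rw [Field.primitive_element_iff_minpoly_natDegree_eq, minpoly_eq hirr ht, F_natDegree, h3]
  have hx : x ∈ IntermediateField.adjoin K ({t} : Set L) := by rw [htop]; trivial
  have ht' : IsAlgebraic K t := Algebra.IsAlgebraic.isAlgebraic t
  rw [← IntermediateField.mem_toSubalgebra,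
    IntermediateField.adjoin_simple_toSubalgebra_of_isAlgebraic ht',
    Algebra.adjoin_singleton_eq_range_aeval] at hx
  exact hx

/-- The norm of a polynomial in `t`. -/
theorem norm_poly (h6 : (6 : K) ≠ 0) {L : Type} [Field L] [Algebra K L]
    (hirr : Irreducible (X ^ 3 + C A * X + C B : K[X])) {t : L} (ht : Rt A B t)
    (h3 : Module.finrank K L = 3) {t₁ t₂ t₃ : Sep K}
    (n1 : t₁ ≠ t₂) (n2 : t₁ ≠ t₃) (n3 : t₂ ≠ t₃) (r1 : Rt A B t₁) (r2 : Rt A B t₂)
    (r3 : Rt A B t₃) (p : K[X]) : algebraMap K (Sep K) (Algebra.norm K (aeval t p)) =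
      aeval t₁ p * aeval t₂ p * aeval t₃ p := by
  haveI : FiniteDimensional K L := FiniteDimensional.of_finrank_pos (by omega)
  have htop : IntermediateField.adjoin K ({t} : Set L) = ⊤ := by
    rw [Field.primitive_element_iff_minpoly_natDegree_eq, minpoly_eq hirr ht, F_natDegree, h3]
  haveI : Algebra.IsSeparable K L := by
    have h1 : Algebra.IsSeparable K (IntermediateField.adjoin K ({t} : Set L)) := by
      rw [IntermediateField.isSeparable_adjoin_simple_iff_isSeparable, IsSeparable,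
        minpoly_eq hirr ht]
      exact F_sep h6 hirr
    rw [htop] at h1
    exact AlgEquiv.Algebra.isSeparable (IntermediateField.topEquiv (F := K) (E := L))
  set E := AlgebraicClosure (Sep K) with hE
  let j : Sep K →ₐ[K] E := IsScalarTower.toAlgHom K (Sep K) E
  have jinj : Function.Injective j := (j : Sep K →+* E).injective
  apply jinj
  have e1 : j (algebraMap K (Sep K) (Algebra.norm K (aeval t p))) =
      algebraMap K E (Algebra.norm K (aeval t p)) := j.commutes _
  rw [e1, Algebra.norm_eq_prod_embeddings]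
  have hext : ∀ σ τ : L →ₐ[K] E, σ t = τ t → σ = τ := by
    intro σ τ h
    apply AlgHom.ext
    intro x
    obtain ⟨q, rfl⟩ := gen_poly hirr ht h3 x
    rw [← aeval_algHom_apply, ← aeval_algHom_apply, h]
  have himg : (Finset.univ : Finset (L →ₐ[K] E)).image (fun σ => σ t) = {j t₁, j t₂, j t₃} := by
    apply Finset.eq_of_subset_of_card_le
    · intro y hy
      rw [Finset.mem_image] at hy
      obtain ⟨σ, -, rfl⟩ := hy
      rcases root_cases (fun h => n1 (jinj h)) (fun h => n2 (jinj h)) (fun h => n3 (jinj h))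
        (rt_map j r1) (rt_map j r2) (rt_map j r3) (rt_map σ ht) with h | h | h <;>
      simp only [h] <;> simp
    · rw [Finset.card_image_of_injective _ (fun σ τ h => hext σ τ h), Finset.card_univ,
        AlgHom.card, h3]
      exact Finset.card_le_three
  have e2 : ∀ σ : L →ₐ[K] E, σ (aeval t p) = (fun y : E => aeval y p) ((fun σ : L →ₐ[K] E => σ t) σ) :=
    fun σ => (aeval_algHom_apply σ t p).symm
  rw [Finset.prod_congr rfl (fun σ _ => e2 σ),
    ← Finset.prod_image (f := fun y : E => aeval y p) (g := fun σ : L →ₐ[K] E => σ t)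
      (fun σ _ τ _ h => hext σ τ h), himg]
  rw [Finset.prod_insert (by simp [jinj.eq_iff, n1, n2]), Finset.prod_insert (by simp [jinj.eq_iff, n3]),
    Finset.prod_singleton, aeval_algHom_apply, aeval_algHom_apply, aeval_algHom_apply, map_mul,
    map_mul, mul_assoc]

theorem gn (h3 : S_GP3) (h4 : S_GP4) : S_GN := by
  intro K _ A B h6 hd hirr f hf hf2 β hβ
  obtain ⟨t₁, t₂, t₃, n1, n2, n3, r1, r2, r3, -⟩ := exists_roots h6 hirr
  have hsq : ∀ (σ : Sep K ≃ₐ[K] Sep K) (t : Sep K), Rt A B t → σ (β t ^ 2) = β (σ t) ^ 2 := by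
    intro σ t ht
    rw [map_pow, (hβ t ht).2 σ, mul_pow, pow_two, sg_mul_self, one_mul]
  obtain ⟨h, hh⟩ := exists_poly (t := t₁) (x := β t₁ ^ 2) (fun σ hσ => by rw [hsq σ t₁ r1, hσ])
  have hall : ∀ t : Sep K, Rt A B t → aeval t h = β t ^ 2 := by
    intro t ht
    obtain ⟨τ, rfl⟩ := trans hirr r1 ht
    have e : aeval (τ t₁) h = τ (aeval t₁ h) := aeval_algHom_apply τ.toAlgHom t₁ h
    rw [e, hh, hsq τ t₁ r1]
  refine ⟨h, hall, ?_⟩
  intro L _ _ t ht hL
  constructor
  · intro h0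
    have hdvd : X ^ 3 + C A * X + C B ∣ h := by
      rw [← minpoly_eq hirr ht]
      exact minpoly.dvd K t h0
    obtain ⟨q, hq⟩ := hdvd
    have e := hall t₁ r1
    rw [hq, map_mul, (rt_iff t₁).1 r1, zero_mul] at e
    exact (hβ t₁ r1).1 (pow_eq_zero_iff (two_ne_zero) |>.1 e.symm)
  · have hb : β t₁ * β t₂ * β t₃ ∈ Set.range (algebraMap K (Sep K)) := by
      rw [InfiniteGalois.mem_range_algebraMap_iff_fixed]
      intro σ
      rw [map_mul, map_mul, (hβ t₁ r1).2 σ, (hβ t₂ r2).2 σ, (hβ t₃ r3).2 σ]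
      have e1 := prod_perm n1 n2 n3 r1 r2 r3 σ β
      have e2 := prod_perm n1 n2 n3 r1 r2 r3 σ (fun t => sg (f σ) t)
      have e3 := (h3 K (Sep K) A B h6 hd t₁ t₂ t₃ r1 r2 r3 n1 n2 n3).1 (f σ) (hf2 σ)
      rw [e3] at e2
      rw [← e1]
      linear_combination (β (σ t₁) * β (σ t₂) * β (σ t₃)) * e2
    obtain ⟨c, hc⟩ := hb
    refine ⟨c, ?_⟩
    apply (algebraMap K (Sep K)).injective
    rw [norm_poly h6 hirr ht hL n1 n2 n3 r1 r2 r3 h, hall _ r1, hall _ r2, hall _ r3, map_mul, hc]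
    ring

theorem gt (h3 : S_GP3) (h4 : S_GP4) : S_GT := by
  intro K _ A B h6 hd hirr f hf hf2 β h hβ hh L _ _ t ht hL hsqu
  obtain ⟨t₁, t₂, t₃, n1, n2, n3, r1, r2, r3, -⟩ := exists_roots h6 hirr
  obtain ⟨γ, hγ⟩ := hsqu
  obtain ⟨g, rfl⟩ := gen_poly hirr ht hL γ
  have hdvd : X ^ 3 + C A * X + C B ∣ h - g ^ 2 := by
    rw [← minpoly_eq hirr ht]
    refine minpoly.dvd K t ?_
    rw [map_sub, map_pow, hγ]; ring
  have hsq : ∀ s : Sep K, Rt A B s → β s ^ 2 = (aeval s g) ^ 2 := by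
    intro s hs
    obtain ⟨q, hq⟩ := hdvd
    have e : aeval s (h - g ^ 2) = 0 := by rw [hq, map_mul, (rt_iff s).1 hs, zero_mul]
    rw [map_sub, map_pow, hh s hs] at e
    exact sub_eq_zero.1 e
  have hgne : ∀ s : Sep K, Rt A B s → aeval s g ≠ 0 := by
    intro s hs h0
    have := hsq s hs
    rw [h0] at this
    exact (hβ s hs).1 (pow_eq_zero_iff two_ne_zero |>.1 (by rw [this]; ring))
  -- the signs
  have hε : ∀ s : Sep K, Rt A B s → (β s / aeval s g = 1 ∨ β s / aeval s g = -1) := by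
    intro s hs
    rw [← mul_self_eq_one_iff, ← pow_two, div_pow, hsq s hs,
      div_self (pow_ne_zero 2 (hgne s hs))]
  obtain ⟨G1, G2, G3, G4⟩ := h3 K (Sep K) A B h6 hd t₁ t₂ t₃ r1 r2 r3 n1 n2 n3
  -- the point and a polynomial
  obtain ⟨T, g', hT, hT'⟩ : ∃ (T : Pt (sW A B) (Sep K)) (g' : K[X]), (2 : ℕ) • T = 0 ∧
      ∀ s : Sep K, Rt A B s → β s = sg T s * aeval s g' := by
    have hprod : (β t₁ / aeval t₁ g) * (β t₂ / aeval t₂ g) * (β t₃ / aeval t₃ g) = 1 ∨
        (-(β t₁ / aeval t₁ g)) * (-(β t₂ / aeval t₂ g)) * (-(β t₃ / aeval t₃ g)) = 1 := by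
      rcases hε _ r1 with h1 | h1 <;> rcases hε _ r2 with h2 | h2 <;> rcases hε _ r3 with h3 | h3 <;>
        rw [h1, h2, h3] <;> simp
    rcases hprod with hp | hp
    · obtain ⟨T, hT, s1, s2, s3⟩ := G4 _ _ _ (hε _ r1) (hε _ r2) (hε _ r3) hp
      refine ⟨T, g, hT, fun s hs => ?_⟩
      have hne := hgne s hs
      rcases root_cases n1 n2 n3 r1 r2 r3 hs with rfl | rfl | rfl
      · rw [s1, div_mul_cancel₀ _ hne]
      · rw [s2, div_mul_cancel₀ _ hne]
      · rw [s3, div_mul_cancel₀ _ hne]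
    · have hε' : ∀ s : Sep K, Rt A B s →
          (-(β s / aeval s g) = 1 ∨ -(β s / aeval s g) = -1) := by
        intro s hs
        rcases hε s hs with h | h <;> rw [h] <;> simp
      obtain ⟨T, hT, s1, s2, s3⟩ := G4 _ _ _ (hε' _ r1) (hε' _ r2) (hε' _ r3) hp
      refine ⟨T, -g, hT, fun s hs => ?_⟩
      have hne := hgne s hs
      rw [map_neg]
      rcases root_cases n1 n2 n3 r1 r2 r3 hs with rfl | rfl | rfl
      · rw [s1, neg_mul_neg, div_mul_cancel₀ _ hne]
      · rw [s2, neg_mul_neg, div_mul_cancel₀ _ hne]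
      · rw [s3, neg_mul_neg, div_mul_cancel₀ _ hne]
  refine ⟨T, hT, fun σ => ?_⟩
  have hσT : (2 : ℕ) • act (sW A B) (rs K σ) T = 0 := two_act' _ hT
  have key : ∀ s : Sep K, Rt A B s →
      sg (f σ + (act (sW A B) (rs K σ) T + T)) (σ s) = 1 := by
    intro s hs
    have hs' : Rt A B (σ s) := rt_map' σ hs
    have h2T : (2 : ℕ) • (act (sW A B) (rs K σ) T + T) = 0 := by
      rw [nsmul_add, hσT, hT, add_zero]
    rw [G2 _ _ _ (hf2 σ) h2T hs', G2 _ _ _ hσT hT hs', sg_act' h4]
    have e1 := (hβ s hs).2 σ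
    rw [hT' s hs, hT' _ hs', map_mul, fix_sg] at e1
    have e2 : σ (aeval s g') = aeval (σ s) g' := (aeval_algHom_apply σ.toAlgHom s g').symm
    rw [e2] at e1
    have e3 : aeval (σ s) g' ≠ 0 := by
      intro h0
      apply (hβ (σ s) hs').1
      rw [hT' _ hs', h0, mul_zero]
    have e4 : sg T s = sg (f σ) (σ s) * sg T (σ s) := by
      apply mul_right_cancel₀ e3
      rw [e1]; ring
    have q1 := sg_mul_self T s
    have q2 := sg_mul_self (f σ) (σ s)
    have q3 := sg_mul_self T (σ s)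
    rw [e4]
    linear_combination (sg T (σ s)) * (sg T (σ s)) * q2 + q3
  have hinv : ∀ s : Sep K, Rt A B s → sg (f σ + (act (sW A B) (rs K σ) T + T)) s = 1 := by
    intro s hs
    have := key (σ⁻¹ s) (rt_map' σ⁻¹ hs)
    rwa [← AlgEquiv.mul_apply, mul_inv_cancel, AlgEquiv.one_apply] at this
  have h2 : (2 : ℕ) • (f σ + (act (sW A B) (rs K σ) T + T)) = 0 := by
    rw [nsmul_add, nsmul_add, hf2, hσT, hT]; simp
  have h0 := G3 _ h2 (hinv _ r1) (hinv _ r2) (hinv _ r3)
  have hTT : T + T = 0 := by rw [← two_nsmul]; exact hT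
  have hNN : act (sW A B) (rs K σ) T + act (sW A B) (rs K σ) T = 0 := by
    rw [← two_nsmul]; exact hσT
  have e : f σ = -(act (sW A B) (rs K σ) T + T) := eq_neg_of_add_eq_zero_left h0
  rw [e, neg_add, ← eq_neg_of_add_eq_zero_left hNN, sub_eq_add_neg]

end K

end Pool.Agent.N187.PP
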